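import Mathlib

open Set Filter Topology

namespace Pool.Agent.Results.MP_c54930_gt.SeparableCase

universe u

/-- `f : X → ℝ` is quasicontinuous: for every `x`, every open `U ∋ x` and every `ε > 0` there is
a nonempty open `W ⊆ U` with `|f y - f x| < ε` on `W`. -/
def QuasiCts {X : Type u} [TopologicalSpace X] (f : X → ℝ) : Prop :=
  ∀ x : X, ∀ U : Set X, IsOpen U → x ∈ U → ∀ ε : ℝ, 0 < ε →
    ∃ W : Set X, IsOpen W ∧ W.Nonempty ∧ W ⊆ U ∧ ∀ y ∈ W, |f y - f x| < ε

/-- `Q_p(X, ℝ)`: the quasicontinuous functions, as a subspace of the product `X → ℝ`. -/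
abbrev Qp (X : Type u) [TopologicalSpace X] : Type u := {f : X → ℝ // QuasiCts f}

/-- The set `X` carries a metric whose topology is coarser than the topology of `X`. -/
def Submetrizable (X : Type u) [τ : TopologicalSpace X] : Prop :=
  ∃ m : MetricSpace X,
    ∀ U : Set X, IsOpen[m.toPseudoMetricSpace.toUniformSpace.toTopologicalSpace] U → IsOpen[τ] U

section aux

variable {X : Type u} [TopologicalSpace X]

lemma qc_closure {U : Set X} (hU : IsOpen U) (c : ℝ) :
    QuasiCts ((closure U).indicator (fun _ => c)) := by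
  intro x O hO hxO ε hε
  by_cases hx : x ∈ closure U
  · refine ⟨O ∩ U, hO.inter hU, mem_closure_iff.1 hx O hO hxO, inter_subset_left, ?_⟩
    intro y hy
    rw [indicator_of_mem hx, indicator_of_mem (subset_closure hy.2)]
    simpa using hε
  · refine ⟨O ∩ (closure U)ᶜ, hO.inter isClosed_closure.isOpen_compl, ⟨x, hxO, hx⟩,
      inter_subset_left, ?_⟩
    intro y hy
    rw [indicator_of_notMem hx, indicator_of_notMem hy.2]
    simpa using hε

lemma qc_const (c : ℝ) : QuasiCts (fun _ : X => c) := by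
  intro x O hO hxO ε hε
  exact ⟨O, hO, ⟨x, hxO⟩, subset_rfl, fun y _ => by simpa using hε⟩

/-- Selection principle obtained from the Fréchet-Urysohn property. -/
lemma core [FrechetUrysohnSpace (Qp X)] (𝓔 : ℕ → Set (Set X))
    (h1 : ∀ n, ∀ E ∈ 𝓔 n, ∃ U, IsOpen U ∧ E = closure U)
    (h2 : ∀ n, ∀ F : Finset X, ∃ E ∈ 𝓔 n, (F : Set X) ⊆ E) (x₀ : X) :
    ∃ (n : ℕ → ℕ) (E : ℕ → Set X), Tendsto n atTop atTop ∧ (∀ k, E k ∈ 𝓔 (n k)) ∧
      ∀ x, ∀ᶠ k in atTop, x ∈ E k := by
  classical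
  set v : ℕ → ℝ := fun n => 1 - 1 / ((n : ℝ) + 1) with hv
  have hvlim : Tendsto v atTop (𝓝 1) := by
    have := (tendsto_one_div_add_atTop_nhds_zero_nat (𝕜 := ℝ)).const_sub 1
    simpa [hv] using this
  set A : Set (Qp X) := {f | ∃ n, ∃ E ∈ 𝓔 n, f.1 = E.indicator (fun _ => v n)} with hA
  set one : Qp X := ⟨fun _ => 1, qc_const 1⟩ with hone
  choose c hc1 hc2 using h2
  have hcl : one ∈ closure A := by
    have hq : ∀ n F, QuasiCts ((c n F).indicator (fun _ => v n)) := by
      intro n F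
      obtain ⟨U, hU, hE⟩ := h1 n _ (hc1 n F)
      rw [hE]
      exact qc_closure hU _
    let g : ℕ × Finset X → Qp X := fun p => ⟨(c p.1 p.2).indicator (fun _ => v p.1), hq p.1 p.2⟩
    have hg : Tendsto g ((atTop : Filter ℕ) ×ˢ (atTop : Filter (Finset X))) (𝓝 one) := by
      rw [tendsto_subtype_rng, tendsto_pi_nhds]
      intro x
      have h3 : Tendsto (fun p : ℕ × Finset X => v p.1)
          ((atTop : Filter ℕ) ×ˢ (atTop : Filter (Finset X))) (𝓝 1) :=
        hvlim.comp tendsto_fst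
      refine h3.congr' ?_
      have h4 : ∀ᶠ p : ℕ × Finset X in (atTop : Filter ℕ) ×ˢ (atTop : Filter (Finset X)),
          ({x} : Finset X) ≤ p.2 := tendsto_snd.eventually (eventually_ge_atTop {x})
      filter_upwards [h4] with p hp
      have hxp : x ∈ p.2 := hp (Finset.mem_singleton_self x)
      have : x ∈ c p.1 p.2 := hc2 p.1 p.2 hxp
      simp only [g]
      rw [indicator_of_mem this]
    refine mem_closure_of_tendsto hg (Eventually.of_forall ?_)
    intro p
    exact ⟨p.1, c p.1 p.2, hc1 _ _, rfl⟩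
  obtain ⟨s, hsA, hs⟩ := mem_closure_iff_seq_limit.1 hcl
  choose n E hE hsE using hsA
  have hpt : ∀ x, Tendsto (fun k => (s k).1 x) atTop (𝓝 1) := by
    intro x
    have h5 : Tendsto (fun k => (s k).1) atTop (𝓝 one.1) :=
      (continuous_subtype_val.tendsto one).comp hs
    exact (tendsto_pi_nhds.1 h5) x
  have key : ∀ (m : ℕ) x, ∀ᶠ k in atTop, x ∈ E k ∧ m ≤ n k := by
    intro m x
    have hlt : v m < 1 := by
      have : (0:ℝ) < 1 / ((m : ℝ) + 1) := by positivity
      simp only [hv]; linarith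
    have hv0 : 0 ≤ v m := by
      have : 1 / ((m : ℝ) + 1) ≤ 1 := by
        rw [div_le_one (by positivity)]
        have : (0:ℝ) ≤ m := Nat.cast_nonneg m
        linarith
      simp only [hv]; linarith
    filter_upwards [(hpt x).eventually (lt_mem_nhds hlt)] with k hk
    rw [hsE k] at hk
    by_cases hx : x ∈ E k
    · rw [indicator_of_mem hx] at hk
      refine ⟨hx, ?_⟩
      by_contra hcon
      push Not at hcon
      have h6 : ((n k : ℕ) : ℝ) + 1 ≤ (m : ℝ) + 1 := by
        have : ((n k : ℕ) : ℝ) ≤ m := by exact_mod_cast hcon.le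
        linarith
      have h7 : 1 / ((m : ℝ) + 1) ≤ 1 / (((n k : ℕ) : ℝ) + 1) :=
        one_div_le_one_div_of_le (by positivity) h6
      simp only [hv] at hk
      linarith
    · rw [indicator_of_notMem hx] at hk
      linarith
  refine ⟨n, E, ?_, hE, fun x => (key 0 x).mono fun k hk => hk.1⟩
  rw [tendsto_atTop]
  intro b
  exact (key b x₀).mono fun k hk => hk.2

/-- small regular closed sets containing a given point -/
lemma small [FirstCountableTopology X] [T3Space X] (x : X) (P : Set X → Set X)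
    (hP : ∀ B, IsOpen B → x ∈ B → IsOpen (P B) ∧ (P B).Nonempty ∧ P B ⊆ B) :
    ∃ (B : ℕ → Set X) (U : Set X), (∀ k, IsOpen (B k) ∧ x ∈ B k) ∧ IsOpen U ∧
      x ∈ closure U ∧ closure U ⊆ {x} ∪ ⋃ k, P (B k) := by
  obtain ⟨B, hB, hBa⟩ := (nhds_basis_opens x).exists_antitone_subbasis
  have h1 : ∀ k, ∃ y V t, y ∈ V ∧ IsOpen V ∧ V ⊆ t ∧ IsClosed t ∧ t ⊆ P (B k) := by
    intro k
    obtain ⟨ho, ⟨y, hy⟩, _⟩ := hP (B k) (hB k).2 (hB k).1
    obtain ⟨t, ht, htc, hts⟩ := exists_mem_nhds_isClosed_subset (ho.mem_nhds hy)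
    exact ⟨y, interior t, t, mem_interior_iff_mem_nhds.2 ht, isOpen_interior, interior_subset,
      htc, hts⟩
  choose y V t hyV hVo hVt htc htP using h1
  refine ⟨B, ⋃ k, V k, fun k => ⟨(hB k).2, (hB k).1⟩, isOpen_iUnion hVo, ?_, ?_⟩
  · rw [mem_closure_iff_nhds]
    intro T hT
    obtain ⟨k, hk⟩ := hBa.mem_iff.1 hT
    exact ⟨y k, hk ((hP (B k) (hB k).2 (hB k).1).2.2 (htP k (hVt k (hyV k)))),
      mem_iUnion.2 ⟨k, hyV k⟩⟩
  · intro z hz
    by_cases hzx : z = x
    · left; exact hzx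
    right
    obtain ⟨O, O', hO, hO', hzO, hxO', hd⟩ := t2_separation hzx
    obtain ⟨k, hk⟩ := hBa.mem_iff.1 (hO'.mem_nhds hxO')
    have h2 : O ∩ (⋃ j, V j) ⊆ ⋃ j ∈ Finset.range k, t j := by
      rintro w ⟨hwO, hw⟩
      obtain ⟨j, hj⟩ := mem_iUnion.1 hw
      by_cases hjk : j < k
      · exact mem_biUnion (Finset.mem_coe.2 (Finset.mem_range.2 hjk)) (hVt j hj)
      · exfalso
        push Not at hjk
        have h3 : w ∈ B k := hBa.antitone hjk
          ((hP (B j) (hB j).2 (hB j).1).2.2 (htP j (hVt j hj)))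
        exact (Set.disjoint_left.1 hd hwO) (hk h3)
    have h4 : IsClosed (⋃ j ∈ Finset.range k, t j) :=
      (Finset.range k).finite_toSet.isClosed_biUnion fun j _ => htc j
    have h5 : z ∈ ⋃ j ∈ Finset.range k, t j :=
      closure_minimal h2 h4 (hO.inter_closure ⟨hzO, hz⟩)
    simp only [mem_iUnion] at h5
    obtain ⟨j, _, hj⟩ := h5
    exact mem_iUnion.2 ⟨j, htP j hj⟩

/-- from pointwise small regular closed sets to an `ω`-cover by small regular closed sets -/
lemma glue (F : Finset X) (U : X → Set X) (hU : ∀ x ∈ F, IsOpen (U x))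
    (hx : ∀ x ∈ F, x ∈ closure (U x)) :
    IsOpen (⋃ x ∈ F, U x) ∧ (F : Set X) ⊆ closure (⋃ x ∈ F, U x) ∧
      closure (⋃ x ∈ F, U x) = ⋃ x ∈ F, closure (U x) := by
  refine ⟨isOpen_biUnion hU, ?_, Finset.closure_biUnion F U⟩
  rw [Finset.closure_biUnion]
  intro x hxF
  exact mem_biUnion hxF (hx x hxF)

end aux

section main

variable {X : Type u} [TopologicalSpace X] [FirstCountableTopology X] [T3Space X]

/-- nowhere dense sets are countable -/
lemma countable_of_isNowhereDense [FrechetUrysohnSpace (Qp X)] {N : Set X}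
    (hN : IsNowhereDense N) : N.Countable := by
  classical
  rcases isEmpty_or_nonempty X with hX | ⟨⟨x₀⟩⟩
  · exact (Set.subsingleton_of_subsingleton).countable
  have hN' : interior (closure N) = ∅ := hN
  suffices h : (closure N).Countable from h.mono subset_closure
  have hsm : ∀ x : X, ∃ U : Set X, IsOpen U ∧ x ∈ closure U ∧ closure U ∩ closure N ⊆ {x} := by
    intro x
    obtain ⟨B, U, hB, hU, hxU, hsub⟩ := small x (fun B => B \ closure N) (by
      intro B hBo hxB
      refine ⟨hBo.sdiff isClosed_closure, ?_, sdiff_subset⟩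
      rw [Set.nonempty_iff_ne_empty]
      intro hemp
      have h1 : B ⊆ interior (closure N) :=
        interior_maximal (sdiff_eq_empty.1 hemp) hBo
      rw [hN'] at h1
      exact h1 hxB)
    refine ⟨U, hU, hxU, ?_⟩
    rintro z ⟨hz, hzN⟩
    rcases hsub hz with h | h
    · exact h
    · obtain ⟨k, hk⟩ := mem_iUnion.1 h
      exact absurd hzN hk.2
  choose U hU hxU hsub using hsm
  obtain ⟨n, E, _, hE, hev⟩ := core
    (fun _ => {E : Set X | (∃ W, IsOpen W ∧ E = closure W) ∧ (E ∩ closure N).Finite})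
    (fun _ E hE => hE.1)
    (by
      intro _ F
      obtain ⟨h1, h2, h3⟩ := glue F U (fun x _ => hU x) (fun x _ => hxU x)
      refine ⟨_, ⟨⟨_, h1, rfl⟩, ?_⟩, h2⟩
      refine F.finite_toSet.subset ?_
      rintro z ⟨hz, hzN⟩
      rw [h3] at hz
      simp only [mem_iUnion] at hz
      obtain ⟨x, hxF, hzx⟩ := hz
      have := hsub x ⟨hzx, hzN⟩
      rw [mem_singleton_iff] at this
      rw [this]; exact hxF) x₀
  have hcov : closure N ⊆ ⋃ k, (E k ∩ closure N) := by
    intro z hz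
    obtain ⟨k, hk⟩ := (hev z).exists
    exact mem_iUnion.2 ⟨k, hk, hz⟩
  exact (countable_iUnion fun k => ((hE k).2).countable).mono hcov

/-- disjoint families of nonempty open sets are countable -/
lemma countable_of_pairwiseDisjoint [FrechetUrysohnSpace (Qp X)] (𝒪 : Set (Set X))
    (hO : ∀ O ∈ 𝒪, IsOpen O ∧ O.Nonempty) (hd : 𝒪.PairwiseDisjoint id) : 𝒪.Countable := by
  classical
  rcases isEmpty_or_nonempty X with hX | ⟨⟨x₀⟩⟩
  · have : 𝒪 ⊆ {∅} := by
      intro O _
      exact Set.eq_empty_of_isEmpty O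
    exact (countable_singleton _).mono this
  have huniq : ∀ O ∈ 𝒪, ∀ O' ∈ 𝒪, (O ∩ O').Nonempty → O = O' := by
    intro O h O' h' hne
    by_contra hcon
    exact (Set.not_disjoint_iff_nonempty_inter.2 hne) (hd h h' hcon)
  have hsm : ∀ x : X, ∃ U : Set X, IsOpen U ∧ x ∈ closure U ∧
      {O ∈ 𝒪 | (closure U ∩ O).Nonempty}.Countable := by
    intro x
    obtain ⟨B, U, hB, hU, hxU, hsub⟩ := small x
      (fun B => if h : ∃ O ∈ 𝒪, (B ∩ O).Nonempty then B ∩ h.choose else B) (by
      intro B hBo hxB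
      by_cases h : ∃ O ∈ 𝒪, (B ∩ O).Nonempty
      · simp only [dif_pos h]
        exact ⟨hBo.inter (hO _ h.choose_spec.1).1, h.choose_spec.2, inter_subset_left⟩
      · simp only [dif_neg h]
        exact ⟨hBo, ⟨x, hxB⟩, subset_rfl⟩)
    refine ⟨U, hU, hxU, ?_⟩
    set P : Set X → Set X :=
      fun B => if h : ∃ O ∈ 𝒪, (B ∩ O).Nonempty then B ∩ h.choose else B with hP
    have h1 : {O ∈ 𝒪 | (closure U ∩ O).Nonempty} ⊆
        {O ∈ 𝒪 | x ∈ O} ∪ ⋃ k, {O ∈ 𝒪 | (P (B k) ∩ O).Nonempty} := by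
      rintro O ⟨hOO, z, hz, hzO⟩
      rcases hsub hz with h | h
      · left
        rw [mem_singleton_iff] at h
        rw [h] at hzO
        exact ⟨hOO, hzO⟩
      · right
        obtain ⟨k, hk⟩ := mem_iUnion.1 h
        exact mem_iUnion.2 ⟨k, hOO, z, hk, hzO⟩
    refine (Countable.union ?_ (countable_iUnion fun k => ?_)).mono h1
    · refine Set.Subsingleton.countable ?_
      rintro O ⟨h, hx⟩ O' ⟨h', hx'⟩
      exact huniq O h O' h' ⟨x, hx, hx'⟩
    · refine Set.Subsingleton.countable ?_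
      rintro O ⟨h, z, hz, hzO⟩ O' ⟨h', z', hz', hzO'⟩
      by_cases hex : ∃ O ∈ 𝒪, (B k ∩ O).Nonempty
      · simp only [hP, dif_pos hex] at hz hz'
        have e1 := huniq O h _ hex.choose_spec.1 ⟨z, hzO, hz.2⟩
        have e2 := huniq O' h' _ hex.choose_spec.1 ⟨z', hzO', hz'.2⟩
        rw [e1, e2]
      · simp only [hP, dif_neg hex] at hz
        exact absurd ⟨O, h, z, hz, hzO⟩ hex
  choose U hU hxU hsub using hsm
  obtain ⟨n, E, _, hE, hev⟩ := core
    (fun _ => {E : Set X | (∃ W, IsOpen W ∧ E = closure W) ∧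
      {O ∈ 𝒪 | (E ∩ O).Nonempty}.Countable})
    (fun _ E hE => hE.1)
    (by
      intro _ F
      obtain ⟨h1, h2, h3⟩ := glue F U (fun x _ => hU x) (fun x _ => hxU x)
      refine ⟨_, ⟨⟨_, h1, rfl⟩, ?_⟩, h2⟩
      have h4 : {O ∈ 𝒪 | (closure (⋃ x ∈ F, U x) ∩ O).Nonempty} ⊆
          ⋃ x ∈ F, {O ∈ 𝒪 | (closure (U x) ∩ O).Nonempty} := by
        rintro O ⟨hOO, z, hz, hzO⟩
        rw [h3] at hz
        simp only [mem_iUnion] at hz
        obtain ⟨x, hxF, hzx⟩ := hz
        exact mem_biUnion hxF ⟨hOO, z, hzx, hzO⟩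
      exact (F.countable_toSet.biUnion fun x _ => hsub x).mono h4) x₀
  have hcov : 𝒪 ⊆ ⋃ k, {O ∈ 𝒪 | (E k ∩ O).Nonempty} := by
    intro O hOO
    obtain ⟨z, hz⟩ := (hO O hOO).2
    obtain ⟨k, hk⟩ := (hev z).exists
    exact mem_iUnion.2 ⟨k, hOO, z, hk, hz⟩
  exact (countable_iUnion fun k => (hE k).2).mono hcov

/-- the set of isolated points is countable -/
lemma countable_isolated [FrechetUrysohnSpace (Qp X)] : {x : X | IsOpen ({x} : Set X)}.Countable := by
  have h := countable_of_pairwiseDisjoint ((fun x : X => ({x} : Set X)) '' {x | IsOpen ({x} : Set X)})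
    (by
      rintro _ ⟨x, hx, rfl⟩
      exact ⟨hx, singleton_nonempty x⟩)
    (by
      rintro _ ⟨x, _, rfl⟩ _ ⟨y, _, rfl⟩ hne
      simp only [Function.onFun, id, Set.disjoint_singleton]
      intro hxy
      exact hne (by rw [hxy]))
  exact Set.countable_of_injective_of_countable_image singleton_injective.injOn h

/-- open separable sets are countable -/
lemma countable_of_separable [FrechetUrysohnSpace (Qp X)] {U D : Set X} (hU : IsOpen U)
    (hD : D.Countable) (hUD : U ⊆ closure D) : U.Countable := by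
  classical
  rcases D.eq_empty_or_nonempty with hDe | hDne
  · rw [hDe, closure_empty] at hUD
    exact (subset_empty_iff.1 hUD) ▸ countable_empty
  obtain ⟨x₀, -⟩ := id hDne
  obtain ⟨d, hd⟩ := hD.exists_eq_range hDne
  have hbas : ∀ i, ∃ B : ℕ → Set X, (∀ k, d i ∈ B k ∧ IsOpen (B k)) ∧
      (𝓝 (d i)).HasAntitoneBasis B := by
    intro i
    obtain ⟨B, hB, hBa⟩ := (nhds_basis_opens (d i)).exists_antitone_subbasis
    exact ⟨B, hB, hBa⟩
  choose B hB hBa using hbas
  set O : ℕ → Set X := fun m => B m.unpair.1 m.unpair.2 ∩ U with hOdef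
  have hOo : ∀ m, IsOpen (O m) := fun m => (hB _ _).2.inter hU
  have hpi : ∀ V : Set X, IsOpen V → V.Nonempty → V ⊆ U → ∃ m, O m ⊆ V ∧ (O m).Nonempty := by
    rintro V hV ⟨z, hz⟩ hVU
    obtain ⟨w, hwV, hwD⟩ := mem_closure_iff.1 (hUD (hVU hz)) V hV hz
    rw [hd] at hwD
    obtain ⟨i, rfl⟩ := hwD
    obtain ⟨k, hk⟩ := (hBa i).mem_iff.1 (hV.mem_nhds hwV)
    refine ⟨Nat.pair i k, ?_, ?_⟩
    · simp only [hOdef, Nat.unpair_pair]
      exact fun y hy => hk hy.1
    · simp only [hOdef, Nat.unpair_pair]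
      exact ⟨d i, (hB i k).1, hVU hwV⟩
  obtain ⟨n, E, hn, hE, hev⟩ := core
    (fun n => {E : Set X | (∃ W, IsOpen W ∧ E = closure W) ∧
      ∀ i ≤ n, (O i).Infinite → ¬ O i ⊆ E})
    (fun _ E hE => hE.1)
    (by
      intro n F
      have hp : ∀ i, ∃ p : X, (O i).Infinite → p ∈ O i ∧ p ∉ F := by
        intro i
        by_cases hi : (O i).Infinite
        · obtain ⟨p, hp, hpF⟩ := hi.exists_notMem_finset F
          exact ⟨p, fun _ => ⟨hp, hpF⟩⟩
        · exact ⟨x₀, fun h => absurd h hi⟩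
      choose p hp using hp
      set Q : Set X := p '' {i | i ≤ n ∧ (O i).Infinite} with hQ
      have hQf : Q.Finite := ((Set.finite_le_nat n).subset fun i hi => hi.1).image p
      have hQF : ∀ x ∈ F, x ∉ Q := by
        rintro x hx ⟨i, hi, rfl⟩
        exact (hp i hi.2).2 hx
      have hsm : ∀ x : X, ∃ W : Set X, x ∈ F → IsOpen W ∧ x ∈ closure W ∧
          Disjoint (closure W) Q := by
        intro x
        by_cases hxF : x ∈ F
        · obtain ⟨C, W, hC, hW, hxW, hsub⟩ := small x (fun C => C \ Q) (by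
            intro C hCo hxC
            exact ⟨hCo.sdiff hQf.isClosed, ⟨x, hxC, hQF x hxF⟩, sdiff_subset⟩)
          refine ⟨W, fun _ => ⟨hW, hxW, ?_⟩⟩
          rw [Set.disjoint_left]
          intro z hz hzQ
          rcases hsub hz with h | h
          · rw [mem_singleton_iff] at h
            exact hQF x hxF (h ▸ hzQ)
          · obtain ⟨k, hk⟩ := mem_iUnion.1 h
            exact hk.2 hzQ
        · exact ⟨∅, fun h => absurd h hxF⟩
      choose W hW using hsm
      obtain ⟨h1, h2, h3⟩ := glue F W (fun x hx => (hW x hx).1) (fun x hx => (hW x hx).2.1)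
      refine ⟨_, ⟨⟨_, h1, rfl⟩, ?_⟩, h2⟩
      intro i hi hinf hsub
      have h4 := hsub (hp i hinf).1
      rw [h3] at h4
      simp only [mem_iUnion] at h4
      obtain ⟨x, hxF, hzx⟩ := h4
      exact (Set.disjoint_left.1 (hW x hxF).2.2 hzx) ⟨i, ⟨hi, hinf⟩, rfl⟩) x₀
  -- the closed sets `H m`
  set H : ℕ → Set X := fun m => ⋂ k ∈ {k | m ≤ k}, E k with hH
  have hHc : ∀ m, IsClosed (H m) := by
    intro m
    refine isClosed_biInter fun k _ => ?_
    obtain ⟨⟨W, _, hWE⟩, _⟩ := hE k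
    rw [hWE]; exact isClosed_closure
  set I : Set X := {x : X | IsOpen ({x} : Set X)} with hI
  have hIo : IsOpen I := by
    rw [isOpen_iff_mem_nhds]
    intro x hx
    exact mem_of_superset (hx.mem_nhds (mem_singleton x)) (by
      intro y hy
      rw [mem_singleton_iff] at hy
      rw [hy]; exact hx)
  have hfr : ∀ S : Set X, IsClosed S → (frontier S).Countable := by
    intro S hS
    refine countable_of_isNowhereDense ?_
    rw [isClosed_frontier.isNowhereDense_iff]
    exact interior_frontier hS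
  have hIfr : (frontier I).Countable := by
    rw [← frontier_compl]
    exact hfr _ hIo.isClosed_compl
  have hcov : U ⊆ (⋃ m, frontier (H m)) ∪ (frontier I ∪ I) := by
    intro x hx
    by_cases hxI : x ∈ closure I
    · right
      by_cases hxI' : x ∈ I
      · right; exact hxI'
      · left
        rw [hIo.frontier_eq]
        exact ⟨hxI, hxI'⟩
    left
    obtain ⟨m, hm⟩ := eventually_atTop.1 (hev x)
    refine mem_iUnion.2 ⟨m, ?_⟩
    rw [(hHc m).frontier_eq]
    refine ⟨mem_iInter₂.2 fun k hk => hm k hk, ?_⟩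
    intro hint
    apply hxI
    rw [mem_closure_iff]
    intro O' hO' hxO'
    obtain ⟨j, hj, hjne⟩ := hpi (O' ∩ (interior (H m) ∩ U))
      (hO'.inter (isOpen_interior.inter hU)) ⟨x, hxO', hint, hx⟩ (fun y hy => hy.2.2)
    have hfin : (O j).Finite := by
      by_contra hinf
      obtain ⟨k, hk1, hk2⟩ := ((tendsto_atTop.1 hn j).and (eventually_ge_atTop m)).exists
      refine (hE k).2 j hk1 hinf ?_
      intro y hy
      exact (mem_iInter₂.1 (interior_subset (hj hy).2.1)) k hk2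
    obtain ⟨y, hy⟩ := hjne
    refine ⟨y, (hj hy).1, ?_⟩
    have h5 : ({y} : Set X) = O j \ (O j \ {y}) := by
      ext z
      constructor
      · intro hz
        rw [mem_singleton_iff] at hz
        rw [hz]
        exact ⟨hy, fun h => h.2 rfl⟩
      · rintro ⟨h1, h2⟩
        by_contra h3
        exact h2 ⟨h1, h3⟩
    have h6 : IsOpen ({y} : Set X) := by
      rw [h5]
      exact (hOo j).sdiff (hfin.subset sdiff_subset).isClosed
    exact h6
  refine ((countable_iUnion fun m => hfr _ (hHc m)).union (hIfr.union ?_)).mono hcov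
  exact countable_isolated

/-- `X` is hereditarily Lindelöf -/
lemma hereditarilyLindelof [FrechetUrysohnSpace (Qp X)] : HereditarilyLindelofSpace X := by
  classical
  refine ⟨fun t _ => isLindelof_of_countable_subcover ?_⟩
  intro ι U hU htU
  -- a maximal disjoint family of nonempty open sets subordinate to `U`
  set 𝒮 : Set (Set (Set X)) := {𝒪 | (∀ O ∈ 𝒪, (IsOpen O ∧ O.Nonempty) ∧ ∃ i, O ⊆ U i) ∧
    𝒪.PairwiseDisjoint id} with h𝒮
  obtain ⟨M, hM⟩ := zorn_subset 𝒮 (by
    intro c hc hchain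
    refine ⟨⋃₀ c, ⟨?_, ?_⟩, fun s hs => subset_sUnion_of_mem hs⟩
    · rintro O ⟨s, hs, hO⟩
      exact (hc hs).1 O hO
    · exact (pairwiseDisjoint_sUnion hchain.directedOn).2 fun s hs => (hc hs).2)
  have hMc : M.Countable := countable_of_pairwiseDisjoint M (fun O hO => (hM.prop.1 O hO).1) hM.prop.2
  have hi : ∀ O : Set X, ∃ i : Set ι, i.Countable ∧ (O ∈ M → O ⊆ ⋃ j ∈ i, U j) := by
    intro O
    by_cases hO : O ∈ M
    · obtain ⟨i, hi⟩ := (hM.prop.1 O hO).2
      refine ⟨{i}, countable_singleton i, fun _ => ?_⟩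
      simpa using hi
    · exact ⟨∅, countable_empty, fun h => absurd h hO⟩
  choose i hic hi using hi
  set G : Set X := ⋃₀ M with hG
  have hGo : IsOpen G := isOpen_sUnion fun O hO => (hM.prop.1 O hO).1.1
  have hdense : (⋃ j, U j) ⊆ closure G := by
    intro x hx
    by_contra hxG
    obtain ⟨j, hj⟩ := mem_iUnion.1 hx
    set V : Set X := U j ∩ (closure G)ᶜ with hV
    have hVo : IsOpen V := (hU j).inter isClosed_closure.isOpen_compl
    have hVne : V.Nonempty := ⟨x, hj, hxG⟩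
    have hVM : insert V M ∈ 𝒮 := by
      refine ⟨?_, ?_⟩
      · rintro O (rfl | hO)
        · exact ⟨⟨hVo, hVne⟩, j, inter_subset_left⟩
        · exact hM.prop.1 O hO
      · refine hM.prop.2.insert ?_
        intro O hO _
        simp only [id]
        rw [Set.disjoint_left]
        intro z hz hzO
        exact hz.2 (subset_closure ⟨O, hO, hzO⟩)
    have hVmem : V ∈ M := hM.le_of_ge hVM (subset_insert V M) (mem_insert V M)
    exact hxG (subset_closure ⟨V, hVmem, hj, hxG⟩)
  have hfr : (closure G \ G).Countable := by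
    rw [← hGo.frontier_eq, ← frontier_compl]
    refine countable_of_isNowhereDense ?_
    rw [isClosed_frontier.isNowhereDense_iff]
    exact interior_frontier hGo.isClosed_compl
  have hk : ∀ x : X, ∃ k : Set ι, k.Countable ∧ (x ∈ t → x ∈ ⋃ j ∈ k, U j) := by
    intro x
    by_cases hx : x ∈ t
    · obtain ⟨j, hj⟩ := mem_iUnion.1 (htU hx)
      refine ⟨{j}, countable_singleton j, fun _ => ?_⟩
      simpa using hj
    · exact ⟨∅, countable_empty, fun h => absurd h hx⟩
  choose k hkc hk using hk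
  refine ⟨(⋃ O ∈ M, i O) ∪ ⋃ x ∈ closure G \ G, k x,
    (hMc.biUnion fun O _ => hic O).union (hfr.biUnion fun x _ => hkc x), ?_⟩
  intro x hx
  by_cases hxG : x ∈ G
  · obtain ⟨O, hO, hxO⟩ := hxG
    have h1 := hi O hO hxO
    simp only [mem_iUnion] at h1
    obtain ⟨j, hj, hxj⟩ := h1
    exact mem_biUnion (Or.inl (mem_biUnion hO hj)) hxj
  · have h1 := hk x hx
    simp only [mem_iUnion] at h1
    obtain ⟨j, hj, hxj⟩ := h1
    exact mem_biUnion (Or.inr (mem_biUnion ⟨hdense (htU hx), hxG⟩ hj)) hxj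

end main

lemma Submetrizable.exists_dist {X : Type u} [TopologicalSpace X] (h : Submetrizable X) :
    ∃ d : X → X → ℝ, (∀ x y, x ≠ y → 0 < d x y) ∧ (∀ x y, d x y = d y x) ∧ (∀ x, d x x = 0) ∧
      (∀ x y z, d x z ≤ d x y + d y z) ∧ ∀ x r, IsOpen {y | d y x < r} := by
  obtain ⟨m, hm⟩ := h
  refine ⟨fun x y => @dist X m.toPseudoMetricSpace.toDist x y, ?_, ?_, ?_, ?_, ?_⟩
  · intro x y hxy
    exact (@dist_pos X m x y).2 hxy
  · intro x y
    exact @dist_comm X m.toPseudoMetricSpace x y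
  · intro x
    exact @dist_self X m.toPseudoMetricSpace x
  · intro x y z
    exact @dist_triangle X m.toPseudoMetricSpace x y z
  · intro x r
    exact hm _ (@Metric.isOpen_ball X m.toPseudoMetricSpace x r)

lemma exists_pos_le {α : Type*} (s : Finset α) (f : α → ℝ) (hf : ∀ a ∈ s, 0 < f a) :
    ∃ δ : ℝ, 0 < δ ∧ ∀ a ∈ s, δ ≤ f a := by
  rcases s.eq_empty_or_nonempty with rfl | hs
  · exact ⟨1, one_pos, by simp⟩
  · obtain ⟨a, ha, hmin⟩ := s.exists_min_image f hs
    exact ⟨f a, hf a ha, hmin⟩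

/-- an infinite set cannot be covered by `j` small balls -/
lemma not_small_cover {X : Type u} {d : X → X → ℝ} (hpos : ∀ x y, x ≠ y → 0 < d x y)
    (hsymm : ∀ x y, d x y = d y x) (htri : ∀ x y z, d x z ≤ d x y + d y z)
    {S : Set X} (hS : S.Infinite) (j : ℕ) :
    ∃ δ : ℝ, 0 < δ ∧ ∀ r, r < δ → ∀ F : Finset X, F.card ≤ j →
      ¬ S ⊆ ⋃ y ∈ F, {z | d z y ≤ r} := by
  classical
  obtain ⟨T, hTS, hTc⟩ := hS.exists_subset_card_eq (j + 1)
  obtain ⟨δ, hδ, hδ'⟩ := exists_pos_le ((T ×ˢ T).filter (fun p => p.1 ≠ p.2))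
    (fun p => d p.1 p.2) (by
      intro p hp
      exact hpos _ _ (Finset.mem_filter.1 hp).2)
  refine ⟨δ / 2, by linarith, ?_⟩
  intro r hr F hF hcov
  have h1 : ∀ t : X, ∃ y : X, t ∈ T → y ∈ F ∧ d t y ≤ r := by
    intro t
    by_cases ht : t ∈ T
    · have h2 := hcov (hTS ht)
      simp only [mem_iUnion] at h2
      obtain ⟨y, hy, hty⟩ := h2
      exact ⟨y, fun _ => ⟨hy, hty⟩⟩
    · exact ⟨t, fun h => absurd h ht⟩
  choose y hy using h1
  obtain ⟨a, ha, b, hb, hab, heq⟩ := Finset.exists_ne_map_eq_of_card_lt_of_maps_to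
    (s := T) (t := F) (f := y) (by omega) (fun t ht => (hy t ht).1)
  have h3 := (hy a ha).2
  have h4 := (hy b hb).2
  rw [← heq] at h4
  have h5 := htri a (y a) b
  rw [hsymm (y a) b] at h5
  have h6 := hδ' (a, b) (Finset.mem_filter.2 ⟨Finset.mem_product.2 ⟨ha, hb⟩, hab⟩)
  simp only at h6
  linarith

lemma isOpen_singleton_of_finite {X : Type u} [TopologicalSpace X] [T1Space X] {O : Set X}
    (hO : IsOpen O) (hfin : O.Finite) {y : X} (hy : y ∈ O) : IsOpen ({y} : Set X) := by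
  have h5 : ({y} : Set X) = O \ (O \ {y}) := by
    ext z
    constructor
    · intro hz
      rw [mem_singleton_iff] at hz
      rw [hz]
      exact ⟨hy, fun h => h.2 rfl⟩
    · rintro ⟨h1, h2⟩
      by_contra h3
      exact h2 ⟨h1, h3⟩
  rw [h5]
  exact hO.sdiff (hfin.subset sdiff_subset).isClosed

section scale

variable {X : Type u} [TopologicalSpace X] [FirstCountableTopology X] [T3Space X]

/-- in the submetrizable case there is a map from `X` to `ℕ → ℕ` all of whose
eventually bounded families are countable -/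
lemma exists_scale [FrechetUrysohnSpace (Qp X)] (hsub : Submetrizable X) :
    ∃ G : X → ℕ → ℕ, ∀ h : ℕ → ℕ, {x | ∀ᶠ j in atTop, G x j ≤ h j}.Countable := by
  classical
  rcases isEmpty_or_nonempty X with hX | ⟨⟨x₀⟩⟩
  · exact ⟨fun _ _ => 0, fun h => (Set.subsingleton_of_subsingleton).countable⟩
  obtain ⟨d, hpos, hsymm, hself, htri, hball⟩ := hsub.exists_dist
  have hbas : ∀ x : X, ∃ B : ℕ → Set X, (∀ k, x ∈ B k ∧ IsOpen (B k)) ∧
      (𝓝 x).HasAntitoneBasis B := by
    intro x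
    obtain ⟨B, hB, hBa⟩ := (nhds_basis_opens x).exists_antitone_subbasis
    exact ⟨B, hB, hBa⟩
  choose B hB hBa using hbas
  set I : Set X := {x : X | IsOpen ({x} : Set X)} with hI
  have hinf : ∀ x, x ∉ I → ∀ i, (B x i).Infinite := by
    intro x hx i hfin
    exact hx (isOpen_singleton_of_finite (hB x i).2 hfin (hB x i).1)
  have hg : ∀ x j, ∃ g : ℕ, x ∉ I → ∀ i ≤ j, ∀ F : Finset X, F.card ≤ j →
      ¬ B x i ⊆ ⋃ y ∈ F, {z | d z y ≤ 1 / ((g : ℝ) + 1)} := by
    intro x j
    by_cases hx : x ∈ I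
    · exact ⟨0, fun h => absurd hx h⟩
    have h1 : ∀ i, ∃ δ : ℝ, 0 < δ ∧ ∀ r, r < δ → ∀ F : Finset X, F.card ≤ j →
        ¬ B x i ⊆ ⋃ y ∈ F, {z | d z y ≤ r} :=
      fun i => not_small_cover hpos hsymm htri (hinf x hx i) j
    choose δ hδ hδ' using h1
    obtain ⟨η, hη, hη'⟩ := exists_pos_le (Finset.range (j + 1)) δ (fun i _ => hδ i)
    obtain ⟨g, hg⟩ := exists_nat_one_div_lt hη
    refine ⟨g, fun _ i hi F hF => hδ' i _ (lt_of_lt_of_le hg (hη' i ?_)) F hF⟩
    exact Finset.mem_range.2 (by omega)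
  choose G hG using hg
  refine ⟨G, fun h => ?_⟩
  obtain ⟨n, E, hn, hE, hev⟩ := core
    (fun n => {E : Set X | (∃ W, IsOpen W ∧ E = closure W) ∧
      ∃ j, n ≤ j ∧ ∃ F : Finset X, F.card ≤ j ∧ E ⊆ ⋃ y ∈ F, {z | d z y ≤ 1 / ((h j : ℝ) + 1)}})
    (fun _ E hE => hE.1)
    (by
      intro n F
      set j := max n F.card with hj
      have hsm : ∀ x : X, ∃ W : Set X, IsOpen W ∧ x ∈ closure W ∧
          closure W ⊆ {z | d z x ≤ 1 / ((h j : ℝ) + 1)} := by
        intro x
        have hpos' : (0:ℝ) < 1 / ((h j : ℝ) + 1) := by positivity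
        have hx : {y | d y x < 1 / ((h j : ℝ) + 1)} ∈ 𝓝 x :=
          (hball x _).mem_nhds (by rw [Set.mem_ofPred_eq, hself]; exact hpos')
        obtain ⟨t, ht, htc, hts⟩ := exists_mem_nhds_isClosed_subset hx
        refine ⟨interior t, isOpen_interior, subset_closure (mem_interior_iff_mem_nhds.2 ht), ?_⟩
        intro z hz
        have h2 : z ∈ t := closure_minimal interior_subset htc hz
        have h3 := hts h2
        rw [Set.mem_ofPred_eq] at h3 ⊢
        exact h3.le
      choose W hW hxW hWs using hsm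
      obtain ⟨h1, h2, h3⟩ := glue F W (fun x _ => hW x) (fun x _ => hxW x)
      refine ⟨_, ⟨⟨_, h1, rfl⟩, j, le_max_left _ _, F, le_max_right _ _, ?_⟩, h2⟩
      rw [h3]
      exact iUnion₂_mono fun x _ => hWs x) x₀
  set H : ℕ → Set X := fun m => ⋂ k ∈ {k | m ≤ k}, E k with hH
  have hHc : ∀ m, IsClosed (H m) := by
    intro m
    refine isClosed_biInter fun k _ => ?_
    obtain ⟨⟨W, _, hWE⟩, _⟩ := hE k
    rw [hWE]; exact isClosed_closure
  have hfr : ∀ S : Set X, IsClosed S → (frontier S).Countable := by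
    intro S hS
    refine countable_of_isNowhereDense ?_
    rw [isClosed_frontier.isNowhereDense_iff]
    exact interior_frontier hS
  have hcov : {x | ∀ᶠ j in atTop, G x j ≤ h j} ⊆ I ∪ ⋃ m, frontier (H m) := by
    intro x hx
    by_cases hxI : x ∈ I
    · left; exact hxI
    right
    obtain ⟨m, hm⟩ := eventually_atTop.1 (hev x)
    refine mem_iUnion.2 ⟨m, ?_⟩
    rw [(hHc m).frontier_eq]
    refine ⟨mem_iInter₂.2 fun k hk => hm k hk, ?_⟩
    intro hint
    obtain ⟨i, hi⟩ := (hBa x).mem_iff.1 (isOpen_interior.mem_nhds hint)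
    obtain ⟨J, hJ⟩ := eventually_atTop.1 hx
    obtain ⟨k, hk1, hk2⟩ := ((tendsto_atTop.1 hn (max i J)).and (eventually_ge_atTop m)).exists
    obtain ⟨-, j, hnj, F, hF, hEF⟩ := hE k
    have hij : i ≤ j := le_trans (le_trans (le_max_left _ _) hk1) hnj
    have hJj : J ≤ j := le_trans (le_trans (le_max_right _ _) hk1) hnj
    refine hG x j hxI i hij F hF ?_
    intro z hz
    have h4 : z ∈ E k := (mem_iInter₂.1 (interior_subset (hi hz))) k hk2
    have h5 := hEF h4
    simp only [mem_iUnion] at h5 ⊢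
    obtain ⟨y, hy, hzy⟩ := h5
    refine ⟨y, hy, ?_⟩
    rw [Set.mem_ofPred_eq] at hzy ⊢
    refine le_trans hzy ?_
    have h6 : ((G x j : ℕ) : ℝ) ≤ ((h j : ℕ) : ℝ) := by exact_mod_cast hJ j hJj
    exact one_div_le_one_div_of_le (by positivity) (by linarith)
  exact (countable_isolated.union (countable_iUnion fun m => hfr _ (hHc m))).mono hcov

end scale

open Cardinal in
/-- **Main theorem.**  Let `X` be a first-countable T3 space such that the space `Q_p(X, ℝ)` of
quasicontinuous functions is Fréchet-Urysohn. -/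
theorem result (X : Type u) [TopologicalSpace X] [FirstCountableTopology X] [T3Space X]
    (hFU : FrechetUrysohnSpace (Qp X)) :
    (∀ D : Set X, D.Countable → Dense D → Countable X) ∧
    (∀ U D : Set X, IsOpen U → D.Countable → U ⊆ closure D → U.Countable) ∧
    (∀ N : Set X, IsNowhereDense N → N.Countable) ∧
    HereditarilyLindelofSpace X ∧
    (¬ Countable X → ∃ V : Set X, IsOpen V ∧ V.Nonempty ∧
      ∀ V' D : Set X, IsOpen V' → V'.Nonempty → V' ⊆ V → D.Countable → ¬ V' ⊆ closure D) ∧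
    (Submetrizable X →
      ∃ G : X → ℕ → ℕ, ∀ h : ℕ → ℕ, {x | ∀ᶠ j in atTop, G x j ≤ h j}.Countable) ∧
    (Submetrizable X →
      (∀ 𝒢 : Set (ℕ → ℕ), #𝒢 ≤ ℵ₁ → ∃ h : ℕ → ℕ, ∀ g ∈ 𝒢, ∀ᶠ j in atTop, g j ≤ h j) →
      Countable X) := by
  classical
  have hsep : ∀ U D : Set X, IsOpen U → D.Countable → U ⊆ closure D → U.Countable :=
    fun U D hU hD hUD => countable_of_separable hU hD hUD
  have hHL : HereditarilyLindelofSpace X := hereditarilyLindelof
  refine ⟨?_, hsep, fun N hN => countable_of_isNowhereDense hN, hHL, ?_,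
    fun hs => exists_scale hs, ?_⟩
  · intro D hD hdense
    have := hsep univ D isOpen_univ hD (by rw [hdense.closure_eq])
    exact Set.countable_univ_iff.1 this
  · intro hX
    -- the union of all countable open sets
    set 𝒞 : Set (Set X) := {O | IsOpen O ∧ O.Countable} with h𝒞
    have hG : (⋃₀ 𝒞).Countable := by
      have hL : IsLindelof (⋃₀ 𝒞) := hHL.isHereditarilyLindelof_univ _ (subset_univ _)
      obtain ⟨T, hT, hcov⟩ := hL.elim_countable_subcover (fun O : 𝒞 => (O : Set X))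
        (fun O => O.2.1) (by rw [sUnion_eq_iUnion])
      exact (hT.biUnion fun O _ => O.2.2).mono hcov
    have hGo : IsOpen (⋃₀ 𝒞) := isOpen_sUnion fun O hO => hO.1
    have hfr : (closure (⋃₀ 𝒞) \ (⋃₀ 𝒞)).Countable := by
      rw [← hGo.frontier_eq, ← frontier_compl]
      refine countable_of_isNowhereDense ?_
      rw [isClosed_frontier.isNowhereDense_iff]
      exact interior_frontier hGo.isClosed_compl
    refine ⟨(closure (⋃₀ 𝒞))ᶜ, isClosed_closure.isOpen_compl, ?_, ?_⟩
    · by_contra hemp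
      rw [Set.not_nonempty_iff_eq_empty, Set.compl_empty_iff] at hemp
      apply hX
      rw [← Set.countable_univ_iff, ← hemp]
      refine (hG.union hfr).mono ?_
      intro x hx
      by_cases hxG : x ∈ ⋃₀ 𝒞
      · left; exact hxG
      · right; exact ⟨hx, hxG⟩
    · rintro V' D hV' ⟨x, hx⟩ hVV hD hcl
      have h1 : V'.Countable := hsep V' D hV' hD hcl
      exact hVV hx (subset_closure ⟨V', ⟨hV', h1⟩, hx⟩)
  · intro hs hb
    by_contra hX
    obtain ⟨G, hG⟩ := exists_scale hs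
    have h1 : ℵ₁ ≤ #X := by
      rw [← succ_aleph0, Order.succ_le_iff]
      by_contra hcon
      exact hX (Cardinal.mk_le_aleph0_iff.1 (not_lt.1 hcon))
    obtain ⟨S, hS⟩ := Cardinal.le_mk_iff_exists_set.1 h1
    have h2 : #(G '' S) ≤ ℵ₁ := by
      have h3 := Cardinal.mk_image_le_lift (f := G) (s := S)
      rw [hS] at h3
      rw [lift_uzero] at h3
      have h4 : Cardinal.lift.{u, 0} #(G '' S) ≤ Cardinal.lift.{u, 0} (ℵ₁ : Cardinal.{0}) := by
        rw [lift_aleph, Ordinal.lift_one]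
        exact h3
      exact Cardinal.lift_le.1 h4
    obtain ⟨h, hh⟩ := hb (G '' S) h2
    have h5 : S ⊆ {x | ∀ᶠ j in atTop, G x j ≤ h j} := by
      intro x hx
      exact hh (G x) (mem_image_of_mem G hx)
    have h6 : S.Countable := (hG h).mono h5
    have h7 : #S ≤ ℵ₀ := Cardinal.mk_le_aleph0_iff.2 h6.to_subtype
    rw [hS] at h7
    exact absurd h7 (not_le.2 aleph0_lt_aleph_one)

end Pool.Agent.Results.MP_c54930_gt.SeparableCase
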